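import Pool.Agent.Helper13.M.Fin1
import Pool.Agent.Helper10.L.LOC
import Pool.Agent.Helper79.L.FR

/-!
# Block LFT: the Frobenius elements of `Ctx` lift to the algebraic closure
-/

set_option autoImplicit false

namespace Pool.Agent.M

open VC IntermediateField NumberField IsDedekindDomain Pool.Agent.SC Pool.Agent.L
open Pool.Agent.HG (Pr nm IsOdd Ctx Gd Over)

/-- **BLOCK LFT.** -/
theorem lft : StmtLFT := by
  classical
  intro k L E _ _ _ _ _ _ _ _ _ _ ι
  have hac : IsAlgClosure k E := ⟨inferInstance, inferInstance⟩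
  have hnE : Normal k E := IsAlgClosure.normal k E
  obtain ⟨α, hα⟩ := Field.exists_primitive_element k L
  obtain ⟨M₁, hM₁, hroots⟩ := Pool.Agent.Helper88.HG.exists_M_roots k L (minpoly k α)
  have hint : IsIntegral k α := Algebra.IsIntegral.isIntegral α
  refine ⟨M₁, hM₁, fun f X hdvd v hv => ?_⟩
  obtain ⟨p, hp, hpM, hpv⟩ := hv
  obtain ⟨O₀, F₀, q, n, hD⟩ := stmtFR k E v
  obtain ⟨P₀, hP₀, hP₀v⟩ := exists_below13 ι hD
  obtain ⟨σ, hσ⟩ := Pool.Agent.HG.exists_conj' hP₀v (X.comap v)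
  have hσ' : ∀ z : L, P₀.valuation L z ≤ 1 ↔ (X.P v).valuation L (σ z) ≤ 1 :=
    Pool.Agent.HG.val_le_conj hσ
  let _ : Algebra L E := (ι : L →+* E).toAlgebra
  have _ : IsScalarTower k L E := IsScalarTower.of_algebraMap_eq fun x => (ι.commutes x).symm
  have hι : ∀ z : L, algebraMap L E z = ι z := fun _ => rfl
  obtain ⟨g, hg⟩ : ∃ g : E ≃ₐ[k] E, ∀ z : L, g (ι z) = ι (σ z) :=
    ⟨σ.liftNormal E, fun z => AlgEquiv.liftNormal_commutes σ E z⟩
  have hg' : ∀ z : L, g.symm (ι z) = ι (σ.symm z) := by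
    intro z
    rw [AlgEquiv.symm_apply_eq, hg, AlgEquiv.apply_symm_apply]
  have hD' := decPt_t g hD
  have hO : ∀ z : L, ι z ∈ tO g O₀ ↔ (X.P v).valuation L z ≤ 1 := by
    intro z
    rw [mem_tO, hg', hP₀, hσ', AlgEquiv.apply_symm_apply]
  refine ⟨tO g O₀, tA g F₀, q, n, hD', hO, ?_⟩
  obtain ⟨F', hF'⟩ : ∃ F' : L ≃ₐ[k] L, ∀ z : L, tA g F₀ (ι z) = ι (F' z) :=
    ⟨(tA g F₀).restrictNormal L, fun z => (AlgEquiv.restrictNormal_commutes (tA g F₀) L z).symm⟩
  have hfr := frob_below13 hD' hO hF'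
  have hov : Over X.M p v (X.P v) := ⟨hp, hpM, hpv, X.comap v⟩
  obtain ⟨hr1, hr2⟩ := hroots X.M p v (X.P v) hdvd hov
  have hroot : ∀ τ : L ≃ₐ[k] L, τ α ∈ (minpoly k α).rootSet L := by
    intro τ
    rw [Polynomial.mem_rootSet]
    refine ⟨minpoly.ne_zero hint, ?_⟩
    have h1 : Polynomial.aeval (τ α) (minpoly k α) = τ (Polynomial.aeval α (minpoly k α)) :=
      Polynomial.aeval_algHom_apply (τ : L →ₐ[k] L) α _
    rw [h1, minpoly.aeval, map_zero]
  have hα1 : (X.P v).valuation L α ≤ 1 := hr1 α (hroot 1)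
  have heq : F' α = X.F v α := by
    by_contra hne
    have h1 := hr2 _ (hroot F') _ (hroot (X.F v)) hne
    have h2 : (X.P v).valuation L (F' α - X.F v α) < 1 := by
      have e : F' α - X.F v α = (F' α - α ^ nm v) - (X.F v α - α ^ nm v) := by ring
      rw [e]
      exact Valuation.map_sub_lt _ (hfr α hα1) (X.frob v α hα1)
    rw [h1] at h2
    exact lt_irrefl _ h2
  have hall : ∀ z : L, F' z = X.F v z := by
    intro z
    have hz : z ∈ IntermediateField.adjoin k {α} := by rw [hα]; trivial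
    induction hz using IntermediateField.adjoin_induction with
    | mem x hx =>
      have hx' : x = α := hx
      rw [hx', heq]
    | algebraMap x => rw [AlgEquiv.commutes, AlgEquiv.commutes]
    | add x y hx hy h1 h2 => rw [map_add, map_add, h1, h2]
    | inv x hx h => rw [map_inv₀, map_inv₀, h]
    | mul x y hx hy h1 h2 => rw [map_mul, map_mul, h1, h2]
  intro z
  rw [hF', hall]

end Pool.Agent.M
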