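import Pool.Agent.Helper45.M.INTc

/-!
# Block INT: the sign at a place
-/

set_option autoImplicit false

namespace Pool.Agent.M

open VC IntermediateField NumberField IsDedekindDomain Pool.Agent.SC Pool.Agent.L
open Pool.Agent.HG (Pr nm IsOdd)

section levels

variable {E U : Type} [Field E] [Field U] [Algebra E U]
  {K0 : Type} [Field K0] [Algebra K0 U] {σ : E ≃+* E} {T : U ≃+* U}

theorem L0_le_NN (n : ℕ) : L0 E K0 (U := U) ≤ NN E K0 n :=
  adjoin.mono E _ _ Set.subset_union_left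

theorem UR.mem {n : ℕ} {w : U} (h : UR E K0 n w) : w ∈ NN E K0 n (U := U) :=
  subset_adjoin _ _ (Or.inr h)

theorem NN_le_NZ (z : U) : NN E K0 2 ≤ NZ E K0 z := adjoin.mono E _ _ Set.subset_union_left

theorem mem_NZ (z : U) : z ∈ NZ E K0 z := subset_adjoin _ _ (Or.inr rfl)

theorem Semi.NN_map [IsAlgClosed E] (hF : IsFunctionField E (L0 E K0 (U := U)))
    (hT : Semi K0 σ T) (n : ℕ) : ∀ x ∈ NN E K0 n (U := U), T x ∈ NN E K0 n (U := U) := by
  refine semi_map hT.const ?_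
  rintro x (⟨y, rfl⟩ | hx)
  · rw [hT.fixK]
    exact subset_adjoin _ _ (Or.inl ⟨y, rfl⟩)
  · exact subset_adjoin _ _ (Or.inr (UR.map hF hT hx))

theorem Semi.NZ_map [IsAlgClosed E] (hF : IsFunctionField E (L0 E K0 (U := U)))
    (hT : Semi K0 σ T) {z : U} (hz : T z ∈ NZ E K0 z) : ∀ x ∈ NZ E K0 z, T x ∈ NZ E K0 z := by
  refine semi_map hT.const ?_
  rintro x ((⟨y, rfl⟩ | hx) | hx)
  · rw [hT.fixK]
    exact subset_adjoin _ _ (Or.inl (Or.inl ⟨y, rfl⟩))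
  · exact subset_adjoin _ _ (Or.inl (Or.inr (UR.map hF hT hx)))
  · have hx' : x = z := hx
    rw [hx']
    exact hz

theorem nz_rep {z : U} (hz : z ^ 2 ∈ NN E K0 2 (U := U)) : ∀ x ∈ NZ E K0 z,
    ∃ α ∈ NN E K0 2 (U := U), ∃ β ∈ NN E K0 2 (U := U), x = α + β * z := by
  intro x hx
  induction hx using IntermediateField.adjoin_induction with
  | mem x hx =>
    rcases hx with hx | hx
    · exact ⟨x, subset_adjoin _ _ hx, 0, zero_mem _, by ring⟩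
    · have hx' : x = z := hx
      exact ⟨0, zero_mem _, 1, one_mem _, by rw [hx']; ring⟩
  | algebraMap x => exact ⟨_, IntermediateField.algebraMap_mem _ x, 0, zero_mem _, by ring⟩
  | add x y hx hy h1 h2 =>
    obtain ⟨α, hα, β, hβ, rfl⟩ := h1
    obtain ⟨α', hα', β', hβ', rfl⟩ := h2
    exact ⟨α + α', add_mem hα hα', β + β', add_mem hβ hβ', by ring⟩
  | inv x hx h =>
    obtain ⟨α, hα, β, hβ, rfl⟩ := h
    by_cases h0 : α + β * z = 0
    · exact ⟨0, zero_mem _, 0, zero_mem _, by rw [h0]; ring⟩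
    · have hD : α ^ 2 - β ^ 2 * z ^ 2 ∈ NN E K0 2 (U := U) :=
        sub_mem (pow_mem hα 2) (mul_mem (pow_mem hβ 2) hz)
      have e : α ^ 2 - β ^ 2 * z ^ 2 = (α + β * z) * (α - β * z) := by ring
      by_cases hD0 : α - β * z = 0
      · have h1 : α + β * z = 2 * α := by
          have h2 : β * z = α := (sub_eq_zero.1 hD0).symm
          rw [h2]; ring
        refine ⟨(2 * α)⁻¹, inv_mem (mul_mem (ofNat_mem _ 2) hα), 0, zero_mem _, ?_⟩
        rw [h1]; ring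
      · refine ⟨α * (α ^ 2 - β ^ 2 * z ^ 2)⁻¹, mul_mem hα (inv_mem hD),
          -β * (α ^ 2 - β ^ 2 * z ^ 2)⁻¹, mul_mem (neg_mem hβ) (inv_mem hD), ?_⟩
        rw [e]
        field_simp
        ring
  | mul x y hx hy h1 h2 =>
    obtain ⟨α, hα, β, hβ, rfl⟩ := h1
    obtain ⟨α', hα', β', hβ', rfl⟩ := h2
    exact ⟨α * α' + β * β' * z ^ 2, add_mem (mul_mem hα hα') (mul_mem (mul_mem hβ hβ') hz),
      α * β' + β * α', add_mem (mul_mem hα hβ') (mul_mem hβ hα'), by ring⟩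

theorem over_val {N N' : IntermediateField E U} {Q : Place E N} {Q' : Place E N'}
    (h : OverPl Q Q') {x : U} (hx : x ∈ N) (hx' : x ∈ N') :
    Q.ring.valuation (⟨x, hx⟩ : N) < 1 ↔ Q'.ring.valuation (⟨x, hx'⟩ : N') < 1 := by
  rw [← Q.ring.mem_nonunits_iff, ← Q'.ring.mem_nonunits_iff, Q.ring.mem_nonunits_iff_or,
    Q'.ring.mem_nonunits_iff_or]
  have h1 : (⟨x, hx⟩ : N) = 0 ↔ (⟨x, hx'⟩ : N') = 0 := by
    rw [Subtype.ext_iff, Subtype.ext_iff]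
    rfl
  have h2 := h x⁻¹ (inv_mem hx) (inv_mem hx')
  have h3 : (⟨x, hx⟩ : N)⁻¹ ∈ Q.ring ↔ (⟨x, hx'⟩ : N')⁻¹ ∈ Q'.ring := h2
  rw [h1, h3]

theorem moves_val {N : IntermediateField E U} {Q Q' : Place E N}
    (h : Moves T N Q Q') {x : U} (hx : x ∈ N) (hx' : T x ∈ N) :
    Q.ring.valuation (⟨x, hx⟩ : N) < 1 ↔ Q'.ring.valuation (⟨T x, hx'⟩ : N) < 1 := by
  rw [← Q.ring.mem_nonunits_iff, ← Q'.ring.mem_nonunits_iff, Q.ring.mem_nonunits_iff_or,
    Q'.ring.mem_nonunits_iff_or]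
  have h1 : (⟨x, hx⟩ : N) = 0 ↔ (⟨T x, hx'⟩ : N) = 0 := by
    rw [Subtype.ext_iff, Subtype.ext_iff]
    exact (map_eq_zero_iff T T.injective).symm
  have h3 : (⟨x, hx⟩ : N)⁻¹ ∈ Q.ring ↔ (⟨T x, hx'⟩ : N)⁻¹ ∈ Q'.ring := by
    have hT : T x⁻¹ ∈ N := by rw [map_inv₀]; exact inv_mem hx'
    have h2 := h x⁻¹ (inv_mem hx) hT
    have e : (⟨T x⁻¹, hT⟩ : N) = (⟨T x, hx'⟩ : N)⁻¹ := Subtype.ext (map_inv₀ T x)
    rw [e] at h2
    exact h2
  rw [h1, h3]

/-- the values are transformed by `σ` -/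
theorem Moves.cg {N : IntermediateField E U} {Q Q' : Place E N}
    (hT : ∀ e, T (algebraMap E U e) = algebraMap E U (σ e))
    (h : Moves T N Q Q') {x : U} (hx : x ∈ N) (hx' : T x ∈ N) {c : E} :
    Cg Q.ring (⟨x, hx⟩ : N) c ↔ Cg Q'.ring (⟨T x, hx'⟩ : N) (σ c) := by
  have hc : x - algebraMap E U c ∈ N := sub_mem hx (IntermediateField.algebraMap_mem _ c)
  have e1 : T (x - algebraMap E U c) = T x - algebraMap E U (σ c) := by rw [map_sub, hT]
  have hc' : T (x - algebraMap E U c) ∈ N := by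
    rw [e1]; exact sub_mem hx' (IntermediateField.algebraMap_mem _ _)
  have h1 := moves_val h hc hc'
  have e2 : (⟨T (x - algebraMap E U c), hc'⟩ : N) = ⟨T x, hx'⟩ - algebraMap E N (σ c) :=
    Subtype.ext e1
  rw [e2] at h1
  exact h1

theorem OverPl.cg {N N' : IntermediateField E U} {Q : Place E N} {Q' : Place E N'}
    (h : OverPl Q Q') {x : U} (hx : x ∈ N) (hx' : x ∈ N') {c : E} :
    Cg Q.ring (⟨x, hx⟩ : N) c ↔ Cg Q'.ring (⟨x, hx'⟩ : N') c := by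
  have hc : x - algebraMap E U c ∈ N := sub_mem hx (IntermediateField.algebraMap_mem _ c)
  have hc' : x - algebraMap E U c ∈ N' := sub_mem hx' (IntermediateField.algebraMap_mem _ c)
  exact over_val h hc hc'

/-- A normalised root: `y² = f / t²` has a value `ρ² ≠ 0` at `b₀`. -/
theorem exists_norm [IsAlgClosed E] (hF : IsFunctionField E (L0 E K0 (U := U)))
    (b₀ : Place E (L0 E K0 (U := U))) {f : L0 E K0 (U := U)} (hf : f ≠ 0)
    (hord : (2 : ℤ) ∣ ord b₀.ring f) :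
    ∃ (t : L0 E K0 (U := U)) (ρ : E), t ≠ 0 ∧ ρ ≠ 0 ∧ Cg b₀.ring (f / t ^ 2) (ρ ^ 2) := by
  obtain ⟨m, hm⟩ := hord
  obtain ⟨t, ht, htm⟩ := FF.exists_ord_eq hF b₀ m
  have h0 : f / t ^ 2 ≠ 0 := div_ne_zero hf (pow_ne_zero 2 ht)
  have h1 : ord b₀.ring (f / t ^ 2) = 0 := by
    rw [FF.ord_div hF b₀ hf (pow_ne_zero 2 ht), FF.ord_pow hF b₀ ht, htm, hm]
    push_cast
    ring
  obtain ⟨c, hc⟩ := FF.exists_residue hF b₀ ((FF.ord_nonneg_iff hF b₀ h0).1 h1.ge)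
  obtain ⟨ρ, hρ⟩ := IsAlgClosed.exists_pow_nat_eq c two_pos
  have hc' : Cg b₀.ring (f / t ^ 2) c := b₀.ring.mem_nonunits_iff.1 hc
  refine ⟨t, ρ, ht, ?_, by rw [hρ]; exact hc'⟩
  rintro rfl
  rw [zero_pow two_ne_zero] at hρ
  subst hρ
  have h2 : 0 < ord b₀.ring (f / t ^ 2) := by
    rw [FF.ord_pos_iff hF b₀ h0, b₀.ring.mem_nonunits_iff]
    have h3 := hc'
    unfold Cg at h3
    rwa [map_zero, sub_zero] at h3
  omega

end levels

end Pool.Agent.M
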