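import Pool.Agent.Helper45.M.INTe

/-!
# Block INT: levels, restriction of places, inertia
-/

set_option autoImplicit false

namespace Pool.Agent.M

open VC IntermediateField NumberField IsDedekindDomain Pool.Agent.SC Pool.Agent.L
open Pool.Agent.HG (Pr nm IsOdd)

section

variable {E U : Type} [Field E] [Field U] [Algebra E U]
  {K0 : Type} [Field K0] [Algebra K0 U]

/-- a root of unity of `U` is a constant -/
theorem const_of_pow [IsAlgClosed E] {n : ℕ} (hn : 0 < n) {ζ : U} (h : ζ ^ n = 1) :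
    ∃ e : E, algebraMap E U e = ζ := by
  have hint : IsIntegral E ζ := ⟨Polynomial.X ^ n - Polynomial.C 1,
    Polynomial.monic_X_pow_sub_C 1 hn.ne', by simp [h]⟩
  exact minpoly.mem_range_of_degree_eq_one E ζ
    (IsAlgClosed.degree_eq_one_of_irreducible E (minpoly.irreducible hint))

/-- `NN n` is generated by finitely many elements -/
theorem NN_fin [IsAlgClosed E] [CharZero E] (hFT : StmtFT)
    (hF : IsFunctionField E (L0 E K0 (U := U))) {n : ℕ} (hn : 0 < n) :
    ∃ Z : Finset U, ∀ N : IntermediateField E U, L0 E K0 (U := U) ≤ N → (∀ z ∈ Z, z ∈ N) →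
      NN E K0 n ≤ N := by
  classical
  obtain ⟨T, hT0, hT⟩ := hFT E (L0 E K0 (U := U)) hF n hn
  have hex : ∀ t : L0 E K0 (U := U), ∃ w : U, (∃ w' : U, w' ^ n = (t : U)) → w ^ n = (t : U) := by
    intro t
    by_cases h : ∃ w' : U, w' ^ n = (t : U)
    · obtain ⟨w, hw⟩ := h
      exact ⟨w, fun _ => hw⟩
    · exact ⟨1, fun h' => absurd h' h⟩
  choose g hg using hex
  refine ⟨T.image g, fun N hLN hZN => ?_⟩
  refine adjoin_le_iff.2 ?_
  rintro w (⟨x, rfl⟩ | hw)
  · exact hLN (subset_adjoin _ _ ⟨x, rfl⟩)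
  · obtain ⟨hw0, f, hf, hord⟩ := hw
    have hf0 : f ≠ 0 := by
      rintro rfl
      exact pow_ne_zero n hw0 hf.symm
    obtain ⟨t, ht, l, hl⟩ := hT f hf0 hord
    have ht0 := hT0 t ht
    have hl0 : l ≠ 0 := by
      rintro rfl
      rw [zero_pow hn.ne', mul_zero] at hl
      exact hf0 hl
    have hlU : (l : U) ≠ 0 := fun h => hl0 (Subtype.ext h)
    have htU : (t : U) ≠ 0 := fun h => ht0 (Subtype.ext h)
    have h1 : (w / (l : U)) ^ n = (t : U) := by
      rw [div_pow, ← hf, hl]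
      show ((t : U) * (l : U) ^ n) / (l : U) ^ n = t
      rw [mul_div_cancel_right₀ _ (pow_ne_zero n hlU)]
    have h2 := hg t ⟨_, h1⟩
    have hg0 : g t ≠ 0 := by
      intro h0
      rw [h0, zero_pow hn.ne'] at h2
      exact htU h2.symm
    have h3 : (w / (l : U) / g t) ^ n = 1 := by
      rw [div_pow, h1, h2, div_self htU]
    obtain ⟨e, he⟩ := const_of_pow (E := E) hn h3
    have h4 : w = algebraMap E U e * g t * l := by
      rw [he]
      field_simp
    rw [h4]
    exact mul_mem (mul_mem (IntermediateField.algebraMap_mem _ _)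
      (hZN _ (Finset.mem_image_of_mem g ht))) (hLN l.2)

/-- restriction of places -/
theorem exists_down {N N' : IntermediateField E U} (hle : N' ≤ N)
    (hK : ∀ x : K0, algebraMap K0 U x ∈ N') (hint : ∀ x : U, IsIntegral K0 x)
    (Q : Place E N) : ∃ Q' : Place E N', OverPl Q' Q := by
  let ι : N' →+* N := (IntermediateField.inclusion hle : N' →ₐ[E] N).toRingHom
  have hι : ∀ x : N', ((ι x : N) : U) = x := fun x => rfl
  refine ⟨⟨Q.ring.comap ι, fun a => ?_, ?_⟩, ?_⟩
  · show ι (algebraMap E N' a) ∈ Q.ring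
    exact Q.algebraMap_mem a
  · intro htop
    apply Q.ne_top
    rw [eq_top_iff]
    intro x _
    -- `K0` is contained in `Q`
    have hKQ : ∀ y : K0, (⟨algebraMap K0 U y, hle (hK y)⟩ : N) ∈ Q.ring := by
      intro y
      have h1 : (⟨algebraMap K0 U y, hK y⟩ : N') ∈ Q.ring.comap ι := by
        rw [htop]; exact ValuationSubring.mem_top _
      exact h1
    let g : K0 →+* Q.ring :=
      { toFun := fun y => ⟨⟨algebraMap K0 U y, hle (hK y)⟩, hKQ y⟩
        map_one' := by
          apply Subtype.ext; apply Subtype.ext; exact map_one _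
        map_mul' := fun a b => by
          apply Subtype.ext; apply Subtype.ext; exact map_mul _ _ _
        map_zero' := by
          apply Subtype.ext; apply Subtype.ext; exact map_zero _
        map_add' := fun a b => by
          apply Subtype.ext; apply Subtype.ext; exact map_add _ _ _ }
    obtain ⟨p, hp, hpx⟩ := hint (x : U)
    have hx : IsIntegral Q.ring x := by
      refine ⟨p.map g, hp.map g, ?_⟩
      rw [Polynomial.eval₂_map]
      have h1 : (algebraMap N U) (Polynomial.eval₂ ((algebraMap Q.ring N).comp g) x p) =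
          Polynomial.eval₂ (algebraMap K0 U) (x : U) p := by
        rw [Polynomial.hom_eval₂]
        rfl
      have h2 : (algebraMap N U) (Polynomial.eval₂ ((algebraMap Q.ring N).comp g) x p) = 0 := by
        rw [h1, hpx]
      exact (map_eq_zero _).1 h2
    obtain ⟨y, hy⟩ := IsIntegrallyClosed.isIntegral_iff.1 hx
    rw [← hy]
    exact y.2
  · intro x hx hx'
    exact Iff.rfl

/-- An inertia element does not change the sign of a square root of a function with even order at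
the branch point. -/
theorem inert_sign [IsAlgClosed E] [CharZero E] (hF : IsFunctionField E (L0 E K0 (U := U)))
    (b₀ : Place E (L0 E K0 (U := U))) {f : L0 E K0 (U := U)} (hf : f ≠ 0)
    (hord : (2 : ℤ) ∣ ord b₀.ring f) :
    ∃ C : Finset E, ∀ w : U, w ^ 2 = f → ∀ N : IntermediateField E U,
      L0 E K0 (U := U) ≤ N → w ∈ N → ∀ Q : Place E N, OverPl b₀ Q → ∀ (σ : E ≃+* E) (T : U ≃+* U),
      Semi K0 σ T → Moves T N Q Q → (∀ e ∈ C, σ e = e) → ∀ s : ℤˣ, T w = ((s : ℤ) : U) * w →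
      s = 1 := by
  classical
  obtain ⟨t, ρ, ht0, hρ0, hcg⟩ := exists_norm hF b₀ hf hord
  obtain ⟨C, hC⟩ := fix_of_const (E := E) (K0 := K0) (t : U) t.2
  refine ⟨insert ρ C, fun w hw N hLN hwN Q hQ σ T hT hm hσ s hs => ?_⟩
  have hTt : T (t : U) = t := hC T hT.fixK fun e he => by
    rw [hT.const, hσ e (Finset.mem_insert_of_mem he)]
  have hσρ : σ ρ = ρ := hσ ρ (Finset.mem_insert_self _ _)
  obtain ⟨y, hy⟩ : ∃ y : U, y = w / t := ⟨_, rfl⟩
  have hyN : y ∈ N := by rw [hy]; exact div_mem hwN (hLN t.2)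
  have hy2 : y ^ 2 = ((f / t ^ 2 : L0 E K0 (U := U)) : U) := by
    rw [hy, div_pow, hw]
    rfl
  have hTy : T y = ((s : ℤ) : U) * y := by rw [hy, map_div₀, hTt, hs, mul_div_assoc]
  have hTyN : T y ∈ N := by rw [hTy]; exact mul_mem (intCast_mem _ _) hyN
  have hQE : ∀ e : E, algebraMap E N e ∈ Q.ring := Q.algebraMap_mem
  obtain ⟨ρ₁, h1, h2⟩ : ∃ ρ₁ : E, Cg Q.ring (⟨y, hyN⟩ : N) ρ₁ ∧ (ρ₁ = ρ ∨ ρ₁ = -ρ) := by
    have h3 : Cg Q.ring ((⟨y, hyN⟩ : N) ^ 2) (ρ ^ 2) := by
      have hx : ((f / t ^ 2 : L0 E K0 (U := U)) : U) ∈ N := hLN (f / t ^ 2).2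
      have h4 := (hQ.cg (f / t ^ 2).2 hx (c := ρ ^ 2)).1 hcg
      have e : (⟨y, hyN⟩ : N) ^ 2 = ⟨((f / t ^ 2 : L0 E K0 (U := U)) : U), hx⟩ := Subtype.ext hy2
      rw [e]
      exact h4
    rcases cg_of_sq h3 with h4 | h4
    · exact ⟨ρ, h4, Or.inl rfl⟩
    · exact ⟨-ρ, h4, Or.inr rfl⟩
  have hρ₁ : ρ₁ ≠ 0 := by
    rcases h2 with rfl | rfl
    · exact hρ0
    · exact neg_ne_zero.2 hρ0
  have hσρ₁ : σ ρ₁ = ρ₁ := by
    rcases h2 with rfl | rfl
    · exact hσρ
    · rw [map_neg, hσρ]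
  have h3 := (hm.cg hT.const hyN hTyN).1 h1
  rw [hσρ₁] at h3
  have h4 : Cg Q.ring (⟨T y, hTyN⟩ : N) (((s : ℤ) : E) * ρ₁) := by
    have h5 := (cg_const (V := Q.ring) ((s : ℤ) : E)).mul hQE h1
    have e : algebraMap E N ((s : ℤ) : E) * ⟨y, hyN⟩ = (⟨T y, hTyN⟩ : N) := by
      apply Subtype.ext
      show algebraMap E U ((s : ℤ) : E) * y = T y
      rw [map_intCast, hTy]
    rw [e] at h5
    exact h5
  have h5 := h4.unique hQE h3
  have h6 : ((s : ℤ) : E) = 1 := mul_right_cancel₀ hρ₁ (by rw [h5, one_mul])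
  have h7 : (s : ℤ) = 1 := by exact_mod_cast h6
  exact Units.ext h7

/-- a finite extension is fixed if finitely many elements are -/
theorem fix_findim {k : Type} [Field k] [Algebra k E] (L : IntermediateField k E)
    (hL : FiniteDimensional k L) : ∃ C : Finset E, ∀ g : E ≃ₐ[k] E, (∀ e ∈ C, g e = e) →
      ∀ x ∈ L, g x = x := by
  classical
  let b := Module.finBasis k L
  refine ⟨Finset.univ.image fun i => ((b i : L) : E), fun g hg x hx => ?_⟩
  have h1 : (⟨x, hx⟩ : L) = ∑ i, b.repr ⟨x, hx⟩ i • b i := (b.sum_repr _).symm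
  have h2 : x = ∑ i, b.repr ⟨x, hx⟩ i • ((b i : L) : E) := by
    have := congrArg (algebraMap L E) h1
    rw [map_sum] at this
    simpa [Algebra.smul_def] using this
  rw [h2, map_sum]
  refine Finset.sum_congr rfl fun i _ => ?_
  rw [map_smul, hg _ (Finset.mem_image_of_mem _ (Finset.mem_univ i))]

end

end Pool.Agent.M
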