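import Pool.Agent.Helper13.M.Defs
import Pool.Agent.Helper17.FF.Transport

/-!
# Block INT: semilinear automorphisms, places, roots
-/

set_option autoImplicit false

namespace Pool.Agent.M

open VC IntermediateField NumberField IsDedekindDomain Pool.Agent.SC Pool.Agent.L
open Pool.Agent.HG (Pr nm IsOdd)

section semi

variable {E U : Type} [Field E] [Field U] [Algebra E U]

/-- `T` acts on the constants as `σ` and trivially on `K0` -/
structure Semi (K0 : Type) [Field K0] [Algebra K0 U] (σ : E ≃+* E) (T : U ≃+* U) : Prop where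
  const : ∀ e, T (algebraMap E U e) = algebraMap E U (σ e)
  fixK : ∀ x : K0, T (algebraMap K0 U x) = algebraMap K0 U x

variable {K0 : Type} [Field K0] [Algebra K0 U] {σ : E ≃+* E} {T : U ≃+* U}

theorem Semi.symm (hT : Semi K0 σ T) : Semi K0 σ.symm T.symm where
  const e := by rw [RingEquiv.symm_apply_eq, hT.const, RingEquiv.apply_symm_apply]
  fixK x := by rw [RingEquiv.symm_apply_eq, hT.fixK]

theorem semi_map (hT : ∀ e, T (algebraMap E U e) = algebraMap E U (σ e)) {s s' : Set U}
    (hs : ∀ x ∈ s, T x ∈ IntermediateField.adjoin E s') :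
    ∀ x ∈ IntermediateField.adjoin E s, T x ∈ IntermediateField.adjoin E s' := by
  intro x hx
  induction hx using IntermediateField.adjoin_induction with
  | mem x hx => exact hs x hx
  | algebraMap x => rw [hT]; exact IntermediateField.algebraMap_mem _ _
  | add x y hx hy h1 h2 => rw [map_add]; exact add_mem h1 h2
  | inv x hx h => rw [map_inv₀]; exact inv_mem h
  | mul x y hx hy h1 h2 => rw [map_mul]; exact mul_mem h1 h2

theorem eq_on_adjoin {T T' : U ≃+* U} {s : Set U}
    (hE : ∀ e : E, T (algebraMap E U e) = T' (algebraMap E U e)) (hs : ∀ x ∈ s, T x = T' x) :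
    ∀ x ∈ IntermediateField.adjoin E s, T x = T' x := by
  intro x hx
  induction hx using IntermediateField.adjoin_induction with
  | mem x hx => exact hs x hx
  | algebraMap x => exact hE x
  | add x y hx hy h1 h2 => rw [map_add, map_add, h1, h2]
  | inv x hx h => rw [map_inv₀, map_inv₀, h]
  | mul x y hx hy h1 h2 => rw [map_mul, map_mul, h1, h2]

theorem Semi.L0_map (hT : Semi K0 σ T) : ∀ x ∈ L0 E K0 (U := U), T x ∈ L0 E K0 (U := U) := by
  refine semi_map hT.const ?_
  rintro _ ⟨x, rfl⟩
  rw [hT.fixK]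
  exact subset_adjoin _ _ ⟨x, rfl⟩

theorem Semi.eq_on_L0 {T' : U ≃+* U} (hT : Semi K0 σ T) (hT' : Semi K0 σ T') :
    ∀ x ∈ L0 E K0 (U := U), T x = T' x := by
  refine eq_on_adjoin (fun e => by rw [hT.const, hT'.const]) ?_
  rintro _ ⟨x, rfl⟩
  rw [hT.fixK, hT'.fixK]

/-- an element of `L0` is fixed by `T` if finitely many constants are -/
theorem fix_of_const (x : U) (hx : x ∈ L0 E K0 (U := U)) : ∃ C : Finset E, ∀ T : U ≃+* U,
    (∀ x : K0, T (algebraMap K0 U x) = algebraMap K0 U x) →
    (∀ e ∈ C, T (algebraMap E U e) = algebraMap E U e) → T x = x := by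
  classical
  induction hx using IntermediateField.adjoin_induction with
  | mem x hx =>
    obtain ⟨y, rfl⟩ := hx
    exact ⟨∅, fun T hT _ => hT y⟩
  | algebraMap x => exact ⟨{x}, fun T _ hT => hT x (Finset.mem_singleton_self x)⟩
  | add x y hx hy h1 h2 =>
    obtain ⟨C1, h1⟩ := h1
    obtain ⟨C2, h2⟩ := h2
    refine ⟨C1 ∪ C2, fun T hT hC => ?_⟩
    rw [map_add, h1 T hT fun e he => hC e (Finset.mem_union_left _ he),
      h2 T hT fun e he => hC e (Finset.mem_union_right _ he)]
  | inv x hx h =>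
    obtain ⟨C, h⟩ := h
    exact ⟨C, fun T hT hC => by rw [map_inv₀, h T hT hC]⟩
  | mul x y hx hy h1 h2 =>
    obtain ⟨C1, h1⟩ := h1
    obtain ⟨C2, h2⟩ := h2
    refine ⟨C1 ∪ C2, fun T hT hC => ?_⟩
    rw [map_mul, h1 T hT fun e he => hC e (Finset.mem_union_left _ he),
      h2 T hT fun e he => hC e (Finset.mem_union_right _ he)]

/-- the restriction of `T` to a stable subfield -/
def restr (N : IntermediateField E U) (T : U ≃+* U) (h1 : ∀ x ∈ N, T x ∈ N)
    (h2 : ∀ x ∈ N, T.symm x ∈ N) : N ≃+* N where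
  toFun x := ⟨T x, h1 x x.2⟩
  invFun x := ⟨T.symm x, h2 x x.2⟩
  left_inv x := Subtype.ext (T.symm_apply_apply x)
  right_inv x := Subtype.ext (T.apply_symm_apply x)
  map_mul' _ _ := Subtype.ext (map_mul T _ _)
  map_add' _ _ := Subtype.ext (map_add T _ _)

/-- the restriction to `L0` -/
def Semi.re (hT : Semi K0 σ T) : L0 E K0 (U := U) ≃+* L0 E K0 (U := U) :=
  restr _ T hT.L0_map hT.symm.L0_map

theorem Semi.re_const (hT : Semi K0 σ T) (e : E) : hT.re (algebraMap E _ e) =
    algebraMap E (L0 E K0 (U := U)) (σ e) := Subtype.ext (hT.const e)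

/-- the image of a place of `L0` -/
def Semi.im (hT : Semi K0 σ T) (b : Place E (L0 E K0 (U := U))) : Place E (L0 E K0 (U := U)) :=
  FF.img hT.re σ hT.re_const b

theorem Semi.moves_im (hT : Semi K0 σ T) (b : Place E (L0 E K0 (U := U))) :
    Moves T _ b (hT.im b) := by
  intro x hx hx'
  exact (FF.mem_img' hT.re σ hT.re_const b ⟨x, hx⟩).symm

theorem place_ext {F : Type} [Field F] [Algebra E F] {P Q : Place E F}
    (h : ∀ x : F, x ∈ P.ring ↔ x ∈ Q.ring) : P = Q := by
  cases P
  cases Q
  congr 1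
  exact ValuationSubring.ext _ _ h

theorem moves_unique {N : IntermediateField E U} {Q Q' Q'' : Place E N}
    (h3 : ∀ x ∈ N, T.symm x ∈ N) (h : Moves T N Q Q')
    (h' : Moves T N Q Q'') : Q' = Q'' := by
  refine place_ext fun x => ?_
  have h4 : T.symm (x : U) ∈ N := h3 x x.2
  have h5 : T (T.symm (x : U)) ∈ N := by rw [T.apply_symm_apply]; exact x.2
  have e : (⟨T (T.symm (x : U)), h5⟩ : N) = x := Subtype.ext (T.apply_symm_apply _)
  have h6 := h _ h4 h5
  have h7 := h' _ h4 h5
  rw [e] at h6 h7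
  rw [← h6, h7]

theorem Semi.moves_iff (hT : Semi K0 σ T) (b b' : Place E (L0 E K0 (U := U))) :
    Moves T _ b b' ↔ hT.im b = b' := by
  constructor
  · intro h
    exact moves_unique hT.symm.L0_map (hT.moves_im b) h
  · rintro rfl
    exact hT.moves_im b

theorem moves_comp {N : IntermediateField E U} {T T' : U ≃+* U} {Q Q' Q'' : Place E N}
    (h2 : ∀ x ∈ N, T x ∈ N) (h : Moves T N Q Q') (h' : Moves T' N Q' Q'') :
    Moves (T' * T) N Q Q'' := by
  intro x hx hx'
  rw [h x hx (h2 x hx), h' (T x) (h2 x hx) hx']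
  rfl

theorem moves_one {N : IntermediateField E U} (Q : Place E N) : Moves (1 : U ≃+* U) N Q Q :=
  fun _ _ _ => Iff.rfl

theorem moves_pow {N : IntermediateField E U} {Q : Place E N} (h2 : ∀ x ∈ N, T x ∈ N)
    (h : Moves T N Q Q) (n : ℕ) : Moves (T ^ n) N Q Q := by
  induction n with
  | zero => exact moves_one Q
  | succ n ih =>
    rw [pow_succ]
    exact moves_comp h2 h ih

/-- the restriction of a fixed place -/
theorem moves_over {N N' : IntermediateField E U} {Q : Place E N} {Q' : Place E N'}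
    {P : Place E N} {P' : Place E N'} (hle : N ≤ N')
    (hQ : OverPl Q Q') (hP : OverPl P P') (h : Moves T N' Q' P') : Moves T N Q P := by
  intro x hx hx'
  rw [hQ x hx (hle hx), hP (T x) hx' (hle hx')]
  exact h x (hle hx) (hle hx')

theorem moves_congr {N : IntermediateField E U} {T T' : U ≃+* U} (hTT : ∀ x ∈ N, T x = T' x)
    {Q Q' : Place E N} (h : Moves T N Q Q') : Moves T' N Q Q' := by
  intro x hx hx'
  have h1 : T x ∈ N := by rw [hTT x hx]; exact hx'
  rw [h x hx h1]
  have e : (⟨T x, h1⟩ : N) = ⟨T' x, hx'⟩ := Subtype.ext (hTT x hx)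
  rw [e]

end semi

end Pool.Agent.M
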