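import Pool.Agent.Helper45.M.INTa

/-!
# Block INT: roots of functions
-/

set_option autoImplicit false

namespace Pool.Agent.M

open VC IntermediateField NumberField IsDedekindDomain Pool.Agent.SC Pool.Agent.L
open Pool.Agent.HG (Pr nm IsOdd)

section ur

variable {E U : Type} [Field E] [IsAlgClosed E] [Field U] [Algebra E U]
  {K0 : Type} [Field K0] [Algebra K0 U] {σ : E ≃+* E} {T : U ≃+* U}
  (hF : IsFunctionField E (L0 E K0 (U := U)))

include hF in
theorem Semi.ord_im (hT : Semi K0 σ T) (b : Place E (L0 E K0 (U := U)))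
    (f : L0 E K0 (U := U)) : ord (hT.im b).ring (hT.re f) = ord b.ring f :=
  FF.ord_img hT.re σ hT.re_const hF b f

omit [IsAlgClosed E] in
theorem Semi.im_surj (hT : Semi K0 σ T) (P : Place E (L0 E K0 (U := U))) :
    ∃ b, hT.im b = P :=
  ⟨_, FF.img_symm hT.re σ hT.re_const P⟩

omit [IsAlgClosed E] in
theorem Semi.im_inj (hT : Semi K0 σ T) {b b' : Place E (L0 E K0 (U := U))}
    (h : hT.im b = hT.im b') : b = b' :=
  FF.img_injective hT.re σ hT.re_const h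

include hF in
theorem UR.map {n : ℕ} {w : U} (hT : Semi K0 σ T) (h : UR E K0 n w) : UR E K0 n (T w) := by
  obtain ⟨h0, f, hf, hord⟩ := h
  refine ⟨(map_ne_zero_iff T T.injective).2 h0, hT.re f, ?_, fun P => ?_⟩
  · rw [← map_pow, ← hf]
    rfl
  · obtain ⟨b, rfl⟩ := hT.im_surj P
    rw [hT.ord_im hF]
    exact hord b

include hF in
theorem UR.mul {n : ℕ} {w w' : U} (h : UR E K0 n w) (h' : UR E K0 n w') : UR E K0 n (w * w') := by
  obtain ⟨h0, f, hf, hord⟩ := h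
  obtain ⟨h0', f', hf', hord'⟩ := h'
  have hf0 : f ≠ 0 := by
    rintro rfl
    exact pow_ne_zero n h0 hf.symm
  have hf0' : f' ≠ 0 := by
    rintro rfl
    exact pow_ne_zero n h0' hf'.symm
  refine ⟨mul_ne_zero h0 h0', f * f', ?_, fun P => ?_⟩
  · rw [mul_pow, ← hf, ← hf']
    rfl
  · rw [FF.ord_mul hF P hf0 hf0']
    exact dvd_add (hord P) (hord' P)

include hF in
theorem UR.inv {n : ℕ} {w : U} (h : UR E K0 n w) : UR E K0 n w⁻¹ := by
  obtain ⟨h0, f, hf, hord⟩ := h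
  have hf0 : f ≠ 0 := by
    rintro rfl
    exact pow_ne_zero n h0 hf.symm
  refine ⟨inv_ne_zero h0, f⁻¹, ?_, fun P => ?_⟩
  · rw [inv_pow, ← hf]
    rfl
  · rw [FF.ord_inv hF P hf0, dvd_neg]
    exact hord P

include hF in
theorem UR.two_pow {w : U} {m : ℕ} (hm : 1 ≤ m) (h : UR E K0 2 w) : UR E K0 (2 ^ m) w := by
  obtain ⟨h0, f, hf, hord⟩ := h
  have hf0 : f ≠ 0 := by
    rintro rfl
    exact pow_ne_zero 2 h0 hf.symm
  obtain ⟨m', rfl⟩ : ∃ m', m = m' + 1 := ⟨m - 1, by omega⟩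
  refine ⟨h0, f ^ 2 ^ m', ?_, fun P => ?_⟩
  · rw [pow_succ' 2 m', pow_mul, ← hf]
    rfl
  · rw [FF.ord_pow hF P hf0, pow_succ]
    push_cast
    exact mul_dvd_mul_left _ (hord P)

include hF in
theorem IsZ.map {b b' : Place E (L0 E K0 (U := U))} {z : U} (hT : Semi K0 σ T)
    (h : IsZ b b' z) : IsZ (hT.im b) (hT.im b') (T z) := by
  obtain ⟨h0, f, hf, hord⟩ := h
  refine ⟨(map_ne_zero_iff T T.injective).2 h0, hT.re f, ?_, fun P => ?_⟩
  · rw [← map_pow, ← hf]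
    rfl
  · obtain ⟨a, rfl⟩ := hT.im_surj P
    rw [hT.ord_im hF, hord a]
    constructor
    · rintro (rfl | rfl)
      · exact Or.inl rfl
      · exact Or.inr rfl
    · rintro (h1 | h1)
      · exact Or.inl (hT.im_inj h1)
      · exact Or.inr (hT.im_inj h1)

include hF in
theorem IsZ.div {b b' : Place E (L0 E K0 (U := U))} {z z' : U} (h : IsZ b b' z)
    (h' : IsZ b b' z') : UR E K0 2 (z * z'⁻¹) := by
  obtain ⟨h0, f, hf, hord⟩ := h
  obtain ⟨h0', f', hf', hord'⟩ := h'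
  have hf0 : f ≠ 0 := by
    rintro rfl
    exact pow_ne_zero 2 h0 hf.symm
  have hf0' : f' ≠ 0 := by
    rintro rfl
    exact pow_ne_zero 2 h0' hf'.symm
  refine ⟨mul_ne_zero h0 (inv_ne_zero h0'), f * f'⁻¹, ?_, fun P => ?_⟩
  · rw [mul_pow, inv_pow, ← hf, ← hf']
    rfl
  · rw [FF.ord_mul hF P hf0 (inv_ne_zero hf0'), FF.ord_inv hF P hf0']
    have h1 := hord P
    have h2 := hord' P
    have h3 : ¬ (2 : ℤ) ∣ ord P.ring f ↔ ¬ (2 : ℤ) ∣ ord P.ring f' := h1.trans h2.symm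
    push_cast
    omega

omit [IsAlgClosed E] in
theorem sign_of_sq {T' : U ≃+* U} (hT : Semi K0 σ T) (hT' : Semi K0 σ T') {z : U}
    (hz : z ^ 2 ∈ L0 E K0 (U := U)) : T z = T' z ∨ T z = -T' z := by
  have h1 := hT.eq_on_L0 hT' _ hz
  rw [map_pow, map_pow] at h1
  exact sq_eq_sq_iff_eq_or_eq_neg.1 h1

omit [IsAlgClosed E] in
theorem IsZ.sq_mem {b b' : Place E (L0 E K0 (U := U))} {z : U} (h : IsZ b b' z) :
    z ^ 2 ∈ L0 E K0 (U := U) := by
  obtain ⟨-, f, hf, -⟩ := h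
  rw [← hf]
  exact f.2

end ur

end Pool.Agent.M
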