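import Pool.Agent.Helper45.M.INTb

/-!
# Block INT: residues, and places of a quadratic extension
-/

set_option autoImplicit false

namespace Pool.Agent.M

section cg

variable {E B : Type} [Field E] [Field B] [Algebra E B]

/-- `x` has the value `c` at `V` -/
def Cg (V : ValuationSubring B) (x : B) (c : E) : Prop := V.valuation (x - algebraMap E B c) < 1

variable {V : ValuationSubring B} (hE : ∀ e : E, algebraMap E B e ∈ V)

include hE in
theorem val_const {e : E} (he : e ≠ 0) : V.valuation (algebraMap E B e) = 1 := by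
  have h1 : V.valuation (algebraMap E B e) ≤ 1 := (V.valuation_le_one_iff _).2 (hE e)
  have h2 : V.valuation (algebraMap E B e⁻¹) ≤ 1 := (V.valuation_le_one_iff _).2 (hE e⁻¹)
  rw [map_inv₀, map_inv₀] at h2
  have h3 : V.valuation (algebraMap E B e) ≠ 0 := by simpa using he
  exact le_antisymm h1 ((inv_le_one₀ (zero_lt_iff.2 h3)).1 h2)

include hE in
theorem Cg.le {x : B} {c : E} (h : Cg V x c) : V.valuation x ≤ 1 := by
  have h1 : x = (x - algebraMap E B c) + algebraMap E B c := by ring
  rw [h1]
  exact Valuation.map_add_le _ (le_of_lt h) ((V.valuation_le_one_iff _).2 (hE c))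

include hE in
theorem Cg.mul {x y : B} {c d : E} (h : Cg V x c) (h' : Cg V y d) : Cg V (x * y) (c * d) := by
  unfold Cg
  have h1 : x * y - algebraMap E B (c * d) =
      x * (y - algebraMap E B d) + (x - algebraMap E B c) * algebraMap E B d := by
    rw [map_mul]; ring
  rw [h1]
  refine Valuation.map_add_lt _ ?_ ?_
  · rw [map_mul]
    exact lt_of_le_of_lt (mul_le_of_le_one_left zero_le (h.le hE)) h'
  · rw [map_mul]
    exact lt_of_le_of_lt (mul_le_of_le_one_right zero_le ((V.valuation_le_one_iff _).2 (hE d))) h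

theorem Cg.add {x y : B} {c d : E} (h : Cg V x c) (h' : Cg V y d) : Cg V (x + y) (c + d) := by
  unfold Cg
  have h1 : x + y - algebraMap E B (c + d) =
      (x - algebraMap E B c) + (y - algebraMap E B d) := by
    rw [map_add]; ring
  rw [h1]
  exact Valuation.map_add_lt _ h h'

theorem Cg.neg {x : B} {c : E} (h : Cg V x c) : Cg V (-x) (-c) := by
  unfold Cg
  have h1 : -x - algebraMap E B (-c) = -(x - algebraMap E B c) := by
    rw [map_neg]; ring
  rw [h1, Valuation.map_neg]
  exact h

theorem cg_const (c : E) : Cg V (algebraMap E B c) c := by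
  unfold Cg
  rw [sub_self, map_zero]
  exact zero_lt_one

include hE in
theorem Cg.unique {x : B} {c d : E} (h : Cg V x c) (h' : Cg V x d) : c = d := by
  by_contra hne
  have h1 : algebraMap E B (c - d) = (x - algebraMap E B d) - (x - algebraMap E B c) := by
    rw [map_sub]; ring
  have h2 : V.valuation (algebraMap E B (c - d)) < 1 := by
    rw [h1]
    exact Valuation.map_sub_lt _ h' h
  rw [val_const hE (sub_ne_zero.2 hne)] at h2
  exact lt_irrefl _ h2

include hE in
theorem Cg.val_eq_one {x : B} {c : E} (h : Cg V x c) (hc : c ≠ 0) : V.valuation x = 1 := by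
  refine le_antisymm (h.le hE) (le_of_not_gt fun h1 => ?_)
  have h2 : Cg V x (0 : E) := by
    unfold Cg
    rw [map_zero, sub_zero]
    exact h1
  exact hc (h.unique hE h2)

include hE in
theorem Cg.inv {x : B} {c : E} (h : Cg V x c) (hc : c ≠ 0) : Cg V x⁻¹ c⁻¹ := by
  have hx := h.val_eq_one hE hc
  have hx0 : x ≠ 0 := by
    rintro rfl
    rw [map_zero] at hx
    exact zero_ne_one hx
  have hc0 : algebraMap E B c ≠ 0 := (map_ne_zero _).2 hc
  unfold Cg
  have h1 : x⁻¹ - algebraMap E B c⁻¹ =
      -(x - algebraMap E B c) * (x⁻¹ * (algebraMap E B c)⁻¹) := by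
    rw [map_inv₀]
    field_simp
    ring
  rw [h1, map_mul, Valuation.map_neg, map_mul, map_inv₀, map_inv₀, hx, val_const hE hc]
  rw [inv_one, mul_one, mul_one]
  exact h

/-- square roots -/
theorem cg_of_sq {x : B} {c : E} (h : Cg V (x ^ 2) (c ^ 2)) :
    Cg V x c ∨ Cg V x (-c) := by
  have h1 : V.valuation ((x - algebraMap E B c) * (x - algebraMap E B (-c))) < 1 := by
    have e : (x - algebraMap E B c) * (x - algebraMap E B (-c)) =
        x ^ 2 - algebraMap E B (c ^ 2) := by
      rw [map_neg, map_pow]; ring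
    rw [e]
    exact h
  by_contra hcon
  push Not at hcon
  obtain ⟨h2, h3⟩ := hcon
  unfold Cg at h2 h3
  push Not at h2 h3
  rw [map_mul] at h1
  exact absurd h1 (not_lt.2 (h2.trans (le_mul_of_one_le_right zero_le h3)))

theorem lt_iff_of_le_iff {V V' : ValuationSubring B} {a : B} (h : a⁻¹ ∈ V ↔ a⁻¹ ∈ V') :
    V.valuation a < 1 ↔ V'.valuation a < 1 := by
  rw [← V.mem_nonunits_iff, ← V'.mem_nonunits_iff, V.mem_nonunits_iff_or, V'.mem_nonunits_iff_or, h]

/-- A place of a quadratic extension, unramified with separated conjugates, is determined by the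
place below and the value of the generator. -/
theorem mem_of_quad (A : Subfield B) {V V' : ValuationSubring B}
    (hE : ∀ e : E, algebraMap E B e ∈ V) (hE' : ∀ e : E, algebraMap E B e ∈ V')
    (hEA : ∀ e : E, algebraMap E B e ∈ A)
    (hA : ∀ x ∈ A, x ∈ V ↔ x ∈ V') {y : B} (hy2 : y ^ 2 ∈ A)
    (hrep : ∀ x : B, ∃ α ∈ A, ∃ β ∈ A, x = α + β * y) {ρ : E} (hρ : ρ ≠ 0) (h2 : (2 : E) ≠ 0)
    (h : Cg V y ρ) (h' : Cg V' y ρ) {x : B} (hx : x ∈ V) : x ∈ V' := by
  have hlt : ∀ a ∈ A, (V.valuation a < 1 ↔ V'.valuation a < 1) := fun a ha =>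
    lt_iff_of_le_iff (hA _ (A.inv_mem ha))
  have hle : ∀ a ∈ A, (V.valuation a ≤ 1 ↔ V'.valuation a ≤ 1) := fun a ha => by
    rw [V.valuation_le_one_iff, V'.valuation_le_one_iff, hA a ha]
  -- reduction to a normalised element
  have key : ∀ α ∈ A, ∀ β ∈ A, V.valuation α ≤ 1 → V.valuation β ≤ 1 →
      (V.valuation α = 1 ∨ V.valuation β = 1) → ∀ γ ∈ A,
      V.valuation (γ * (α + β * y)) ≤ 1 → V'.valuation (γ * (α + β * y)) ≤ 1 := by
    intro α hα β hβ hα1 hβ1 hor γ hγ hval
    have hα1' := (hle α hα).1 hα1
    have hβ1' := (hle β hβ).1 hβ1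
    have hρA : algebraMap E B ρ ∈ A := hEA ρ
    have hs : α + β * algebraMap E B ρ ∈ A := A.add_mem hα (A.mul_mem hβ hρA)
    have hd : α - β * algebraMap E B ρ ∈ A := A.sub_mem hα (A.mul_mem hβ hρA)
    have e1 : α + β * y = (α + β * algebraMap E B ρ) + β * (y - algebraMap E B ρ) := by ring
    have e2 : α - β * y = (α - β * algebraMap E B ρ) - β * (y - algebraMap E B ρ) := by ring
    have l1 : V.valuation (β * (y - algebraMap E B ρ)) < 1 := by
      rw [map_mul]; exact lt_of_le_of_lt (mul_le_of_le_one_left zero_le hβ1) h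
    have l1' : V'.valuation (β * (y - algebraMap E B ρ)) < 1 := by
      rw [map_mul]; exact lt_of_le_of_lt (mul_le_of_le_one_left zero_le hβ1') h'
    have hρV := val_const hE hρ
    have hρV' := val_const hE' hρ
    -- units
    have unit_of : ∀ (W : ValuationSubring B) (a b : B), W.valuation a ≤ 1 →
        ¬ W.valuation a < 1 → W.valuation b < 1 → W.valuation (a + b) = 1 := by
      intro W a b ha hna hb
      have h3 : W.valuation a = 1 := le_antisymm ha (not_lt.1 hna)
      rw [Valuation.map_add_eq_of_lt_left _ (by rw [h3]; exact hb), h3]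
    by_cases hc : V.valuation (α + β * algebraMap E B ρ) < 1
    · -- the conjugate is a unit
      have hdu : ¬ V.valuation (α - β * algebraMap E B ρ) < 1 := by
        intro hdl
        have h3 : V.valuation (algebraMap E B 2 * α) < 1 := by
          have e3 : algebraMap E B 2 * α = (α + β * algebraMap E B ρ) +
              (α - β * algebraMap E B ρ) := by
            rw [map_ofNat]; ring
          rw [e3]
          exact Valuation.map_add_lt _ hc hdl
        have h4 : V.valuation (algebraMap E B 2 * (β * algebraMap E B ρ)) < 1 := by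
          have e3 : algebraMap E B 2 * (β * algebraMap E B ρ) = (α + β * algebraMap E B ρ) -
              (α - β * algebraMap E B ρ) := by
            rw [map_ofNat]; ring
          rw [e3]
          exact Valuation.map_sub_lt _ hc hdl
        rw [map_mul, val_const hE h2, one_mul] at h3
        rw [map_mul, val_const hE h2, one_mul, map_mul, hρV, mul_one] at h4
        rcases hor with h5 | h5
        · rw [h5] at h3; exact lt_irrefl _ h3
        · rw [h5] at h4; exact lt_irrefl _ h4
      have hdu' : ¬ V'.valuation (α - β * algebraMap E B ρ) < 1 := fun h3 => hdu ((hlt _ hd).2 h3)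
      have hdle : V.valuation (α - β * algebraMap E B ρ) ≤ 1 := by
        refine Valuation.map_sub_le _ hα1 ?_
        rw [map_mul, hρV, mul_one]; exact hβ1
      have hdle' := (hle _ hd).1 hdle
      have hw : V.valuation (α - β * y) = 1 := by
        rw [e2, sub_eq_add_neg]
        exact unit_of V _ _ hdle hdu (by rw [Valuation.map_neg]; exact l1)
      have hw' : V'.valuation (α - β * y) = 1 := by
        rw [e2, sub_eq_add_neg]
        exact unit_of V' _ _ hdle' hdu' (by rw [Valuation.map_neg]; exact l1')
      have hN : γ * (α ^ 2 - β ^ 2 * y ^ 2) ∈ A :=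
        A.mul_mem hγ (A.sub_mem (A.pow_mem hα 2) (A.mul_mem (A.pow_mem hβ 2) hy2))
      have e4 : γ * (α ^ 2 - β ^ 2 * y ^ 2) = (γ * (α + β * y)) * (α - β * y) := by ring
      have v1 : V.valuation (γ * (α ^ 2 - β ^ 2 * y ^ 2)) = V.valuation (γ * (α + β * y)) := by
        rw [e4, map_mul, hw, mul_one]
      have v2 : V'.valuation (γ * (α ^ 2 - β ^ 2 * y ^ 2)) = V'.valuation (γ * (α + β * y)) := by
        rw [e4, map_mul, hw', mul_one]
      rw [← v2, ← hle _ hN, v1]
      exact hval
    · have hc' : ¬ V'.valuation (α + β * algebraMap E B ρ) < 1 := fun h3 => hc ((hlt _ hs).2 h3)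
      have hsle : V.valuation (α + β * algebraMap E B ρ) ≤ 1 := by
        refine Valuation.map_add_le _ hα1 ?_
        rw [map_mul, hρV, mul_one]; exact hβ1
      have hsle' := (hle _ hs).1 hsle
      have hw : V.valuation (α + β * y) = 1 := by
        rw [e1]
        exact unit_of V _ _ hsle hc l1
      have hw' : V'.valuation (α + β * y) = 1 := by
        rw [e1]
        exact unit_of V' _ _ hsle' hc' l1'
      rw [map_mul, hw, mul_one] at hval
      rw [map_mul, hw', mul_one]
      exact (hle γ hγ).1 hval
  obtain ⟨α, hα, β, hβ, rfl⟩ := hrep x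
  rw [← V.valuation_le_one_iff] at hx
  rw [← V'.valuation_le_one_iff]
  by_cases h0 : α = 0 ∧ β = 0
  · obtain ⟨rfl, rfl⟩ := h0
    simp
  rcases le_total (V.valuation β) (V.valuation α) with hab | hab
  · have hα0 : α ≠ 0 := by
      rintro rfl
      rw [map_zero] at hab
      have : β = 0 := by
        have h3 := le_antisymm hab zero_le
        simpa using h3
      exact h0 ⟨rfl, this⟩
    have hva : V.valuation α ≠ 0 := by simpa using hα0
    have e : α + β * y = α * (1 + (β / α) * y) := by field_simp
    rw [e] at hx ⊢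
    refine key 1 A.one_mem (β / α) (A.div_mem hβ hα) (by rw [map_one]) ?_ (Or.inl (map_one _)) α hα
      hx
    rw [map_div₀]
    exact div_le_one_of_le₀ hab zero_le
  · have hβ0 : β ≠ 0 := by
      rintro rfl
      rw [map_zero] at hab
      have : α = 0 := by
        have h3 := le_antisymm hab zero_le
        simpa using h3
      exact h0 ⟨this, rfl⟩
    have e : α + β * y = β * (α / β + 1 * y) := by field_simp
    rw [e] at hx ⊢
    refine key (α / β) (A.div_mem hα hβ) 1 A.one_mem ?_ (by rw [map_one]) (Or.inr (map_one _)) β hβ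
      hx
    rw [map_div₀]
    exact div_le_one_of_le₀ hab zero_le

end cg

end Pool.Agent.M
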