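import Pool.Agent.Helper45.M.INTd

/-!
# Block INT: the sign is computed by the reference action
-/

set_option autoImplicit false

namespace Pool.Agent.M

open VC IntermediateField NumberField IsDedekindDomain Pool.Agent.SC Pool.Agent.L
open Pool.Agent.HG (Pr nm IsOdd)

theorem comap_lt {B B' : Type} [Field B] [Field B'] (g : B →+* B') (V : ValuationSubring B')
    (x : B) : (V.comap g).valuation x < 1 ↔ V.valuation (g x) < 1 := by
  rw [← (V.comap g).mem_nonunits_iff, ← V.mem_nonunits_iff, (V.comap g).mem_nonunits_iff_or,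
    V.mem_nonunits_iff_or, ValuationSubring.mem_comap, map_inv₀, map_eq_zero]

section

variable {E U : Type} [Field E] [Field U] [Algebra E U]
  {K0 : Type} [Field K0] [Algebra K0 U] {σ : E ≃+* E} {T T' : U ≃+* U}

theorem over_trans {N N' N'' : IntermediateField E U} (h1 : N ≤ N') {Q : Place E N}
    {Q' : Place E N'} {Q'' : Place E N''} (h : OverPl Q Q') (h' : OverPl Q' Q'') :
    OverPl Q Q'' := by
  intro x hx hx''
  rw [h x hx (h1 hx), h' x (h1 hx) hx'']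

theorem sgn_eq [IsAlgClosed E] [CharZero E] (hF : IsFunctionField E (L0 E K0 (U := U)))
    {b b' b₀ : Place E (L0 E K0 (U := U))} {z : U} (hz : IsZ b b' z) (h0 : b₀ ≠ b)
    (h0' : b₀ ≠ b') {P : Place E (NN E K0 2 (U := U))} (hP : OverPl b₀ P)
    {Q₀ : Place E (NZ E K0 z)} (hQ₀ : OverPl P Q₀) (hT : Semi K0 σ T) (hT' : Semi K0 σ T')
    (hTb : hT.im b = b) (hTb' : hT.im b' = b') (hAg : ∀ x ∈ NN E K0 2 (U := U), T' x = T x)
    (hmP : Moves T _ P P) (hmQ : Moves T' _ Q₀ Q₀) {ε : ℤˣ} (hε : T' z = ((ε : ℤ) : U) * T z) :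
    sgn T P z = ε := by
  classical
  have hch : CharZero U := charZero_of_injective_algebraMap (algebraMap E U).injective
  have hTz : IsZ b b' (T z) := by
    have := hz.map hF hT
    rwa [hTb, hTb'] at this
  have huR : UR E K0 2 (T z * z⁻¹) := hTz.div hF hz
  have hz2 := hz.sq_mem
  obtain ⟨hz0, f, hf, hord⟩ := hz
  have hf0 : f ≠ 0 := by
    rintro rfl
    exact pow_ne_zero 2 hz0 hf.symm
  have hdiv : (2 : ℤ) ∣ ord b₀.ring f := by
    by_contra hcon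
    rcases (hord b₀).1 hcon with h | h
    · exact h0 h
    · exact h0' h
  obtain ⟨t, ρ, ht0, hρ0, hcg⟩ := exists_norm hF b₀ hf0 hdiv
  have htU : (t : U) ≠ 0 := fun h => ht0 (Subtype.ext h)
  have hTt : T (t : U) ≠ 0 := (map_ne_zero_iff T T.injective).2 htU
  have hLN : L0 E K0 (U := U) ≤ NN E K0 2 := L0_le_NN 2
  have hNZ : NN E K0 2 ≤ NZ E K0 z := NN_le_NZ z
  have hzB : z ∈ NZ E K0 z := mem_NZ z
  obtain ⟨y, hy⟩ : ∃ y : U, y = z / t := ⟨_, rfl⟩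
  have hy0 : y ≠ 0 := by rw [hy]; exact div_ne_zero hz0 htU
  have hyB : y ∈ NZ E K0 z := by rw [hy]; exact div_mem hzB (hNZ (hLN t.2))
  have hy2 : y ^ 2 = ((f / t ^ 2 : L0 E K0 (U := U)) : U) := by
    rw [hy, div_pow, ← hf]
    rfl
  have hy2A : y ^ 2 ∈ NN E K0 2 (U := U) := by rw [hy2]; exact hLN (f / t ^ 2).2
  obtain ⟨u, hu⟩ : ∃ u : U, u = T z * z⁻¹ * t * (T t)⁻¹ := ⟨_, rfl⟩
  have huA : u ∈ NN E K0 2 (U := U) := by
    rw [hu]
    exact mul_mem (mul_mem huR.mem (hLN t.2)) (inv_mem (hT.NN_map hF 2 _ (hLN t.2)))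
  have hTy : T y = u * y := by
    rw [hu, hy, map_div₀]
    field_simp
  have hTy' : T' y = ((ε : ℤ) : U) * (u * y) := by
    rw [← hTy, hy, map_div₀, map_div₀, hε, hAg t (hLN t.2)]
    ring
  have hyTB : T y ∈ NZ E K0 z := by rw [hTy]; exact mul_mem (hNZ huA) hyB
  have hTyB' : T' y ∈ NZ E K0 z := by
    rw [hTy']; exact mul_mem (intCast_mem _ _) (mul_mem (hNZ huA) hyB)
  have hTz' : T z ∈ NZ E K0 z := by
    have h1 : T z = T z * z⁻¹ * z := by field_simp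
    rw [h1]
    exact mul_mem (hNZ huR.mem) hzB
  have hQE : ∀ (Q : Place E (NZ E K0 z)) (e : E), algebraMap E (NZ E K0 z) e ∈ Q.ring :=
    fun Q e => Q.algebraMap_mem e
  -- the value of `y` at the places above `b₀`
  have hval : ∀ Q : Place E (NZ E K0 z), OverPl P Q →
      Cg Q.ring (⟨y, hyB⟩ : NZ E K0 z) ρ ∨ Cg Q.ring (⟨y, hyB⟩ : NZ E K0 z) (-ρ) := by
    intro Q hQ
    refine cg_of_sq ?_
    have h1 : OverPl b₀ Q := over_trans hLN hP hQ
    have hx : ((f / t ^ 2 : L0 E K0 (U := U)) : U) ∈ NZ E K0 z := hNZ (hLN (f / t ^ 2).2)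
    have h2 := (h1.cg (f / t ^ 2).2 hx (c := ρ ^ 2)).1 hcg
    have e : (⟨y, hyB⟩ : NZ E K0 z) ^ 2 = ⟨((f / t ^ 2 : L0 E K0 (U := U)) : U), hx⟩ :=
      Subtype.ext hy2
    rw [e]
    exact h2
  obtain ⟨ρ₀, hρ₀, hρ₀'⟩ : ∃ ρ₀ : E, Cg Q₀.ring (⟨y, hyB⟩ : NZ E K0 z) ρ₀ ∧
      (ρ₀ = ρ ∨ ρ₀ = -ρ) := by
    rcases hval Q₀ hQ₀ with h | h
    · exact ⟨ρ, h, Or.inl rfl⟩
    · exact ⟨-ρ, h, Or.inr rfl⟩
  have hρ₀0 : ρ₀ ≠ 0 := by
    rcases hρ₀' with rfl | rfl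
    · exact hρ0
    · exact neg_ne_zero.2 hρ0
  have hσρ₀ : σ ρ₀ ≠ 0 := (map_ne_zero_iff σ σ.injective).2 hρ₀0
  have hee : ((ε : ℤ) : E) * ((ε : ℤ) : E) = 1 := by
    rw [← Int.cast_mul, Int.units_coe_mul_self, Int.cast_one]
  have heeU : ((ε : ℤ) : U) * ((ε : ℤ) : U) = 1 := by
    rw [← Int.cast_mul, Int.units_coe_mul_self, Int.cast_one]
  -- the value of `u`
  have h1 : Cg Q₀.ring (⟨T' y, hTyB'⟩ : NZ E K0 z) (σ ρ₀) := (hmQ.cg hT'.const hyB hTyB').1 hρ₀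
  have hu1 : Cg Q₀.ring (⟨u, hNZ huA⟩ : NZ E K0 z) (((ε : ℤ) : E) * σ ρ₀ * ρ₀⁻¹) := by
    have h2 := (((cg_const (V := Q₀.ring) (((ε : ℤ) : E))).mul (hQE Q₀) h1).mul (hQE Q₀)
      (hρ₀.inv (hQE Q₀) hρ₀0))
    have e : (algebraMap E (NZ E K0 z) ((ε : ℤ) : E) * ⟨T' y, hTyB'⟩ *
        (⟨y, hyB⟩ : NZ E K0 z)⁻¹) = ⟨u, hNZ huA⟩ := by
      apply Subtype.ext
      show algebraMap E U ((ε : ℤ) : E) * T' y * y⁻¹ = u
      rw [map_intCast, hTy', ← mul_assoc, heeU, one_mul, mul_inv_cancel_right₀ hy0]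
    rw [e] at h2
    exact h2
  have huQ : ∀ Q : Place E (NZ E K0 z), OverPl P Q →
      Cg Q.ring (⟨u, hNZ huA⟩ : NZ E K0 z) (((ε : ℤ) : E) * σ ρ₀ * ρ₀⁻¹) := fun Q hQ =>
    (hQ.cg huA (hNZ huA)).1 ((hQ₀.cg huA (hNZ huA)).2 hu1)
  have hTyQ : ∀ (Q : Place E (NZ E K0 z)), OverPl P Q → ∀ ρ' : E,
      Cg Q.ring (⟨y, hyB⟩ : NZ E K0 z) ρ' →
      Cg Q.ring (⟨T y, hyTB⟩ : NZ E K0 z) (((ε : ℤ) : E) * σ ρ₀ * ρ₀⁻¹ * ρ') := by
    intro Q hQ ρ' h
    have h2 := (huQ Q hQ).mul (hQE Q) h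
    have e : (⟨u, hNZ huA⟩ : NZ E K0 z) * ⟨y, hyB⟩ = ⟨T y, hyTB⟩ := Subtype.ext hTy.symm
    rw [e] at h2
    exact h2
  unfold sgn
  split_ifs with hall
  · -- all places are fixed
    have h2 : Cg Q₀.ring (⟨T y, hyTB⟩ : NZ E K0 z) (σ ρ₀) :=
      ((hall Q₀ hQ₀).cg hT.const hyB hyTB).1 hρ₀
    have h3 := (hTyQ Q₀ hQ₀ ρ₀ hρ₀).unique (hQE Q₀) h2
    rw [mul_assoc, inv_mul_cancel₀ hρ₀0, mul_one] at h3
    have h4 : ((ε : ℤ) : E) = 1 := mul_right_cancel₀ hσρ₀ (by rw [h3, one_mul])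
    have h5 : (ε : ℤ) = 1 := by exact_mod_cast h4
    exact (Units.ext h5).symm
  · rcases Int.units_eq_one_or ε with hε1 | hε1
    · exfalso
      apply hall
      intro Q hQ
      obtain ⟨ρ', hρ', hρ''⟩ : ∃ ρ' : E, Cg Q.ring (⟨y, hyB⟩ : NZ E K0 z) ρ' ∧
          (ρ' = ρ₀ ∨ ρ' = -ρ₀) := by
        rcases hval Q hQ with h | h
        · refine ⟨ρ, h, ?_⟩
          rcases hρ₀' with h3 | h3
          · exact Or.inl h3.symm
          · right; rw [h3, neg_neg]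
        · refine ⟨-ρ, h, ?_⟩
          rcases hρ₀' with h3 | h3
          · right; rw [h3]
          · exact Or.inl h3.symm
      have hρ'0 : ρ' ≠ 0 := by
        rcases hρ'' with rfl | rfl
        · exact hρ₀0
        · exact neg_ne_zero.2 hρ₀0
      have hmapB := hT.NZ_map hF hTz'
      let TB : NZ E K0 z →+* NZ E K0 z :=
        { toFun := fun x => ⟨T x, hmapB x x.2⟩
          map_one' := Subtype.ext (map_one T)
          map_mul' := fun x x' => Subtype.ext (map_mul T _ _)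
          map_zero' := Subtype.ext (map_zero T)
          map_add' := fun x x' => Subtype.ext (map_add T _ _) }
      let V' : ValuationSubring (NZ E K0 z) := Q.ring.comap TB
      let A : Subfield (NZ E K0 z) :=
        (NN E K0 2 (U := U)).toSubfield.comap (algebraMap (NZ E K0 z) U)
      have hEA : ∀ e : E, algebraMap E (NZ E K0 z) e ∈ A := fun e =>
        (IntermediateField.algebraMap_mem (NN E K0 2 (U := U)) e)
      have hTBE : ∀ e : E, TB (algebraMap E _ e) = algebraMap E (NZ E K0 z) (σ e) := fun e =>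
        Subtype.ext (hT.const e)
      have hE' : ∀ e : E, algebraMap E (NZ E K0 z) e ∈ V' := fun e => by
        show TB (algebraMap E _ e) ∈ Q.ring
        rw [hTBE]
        exact hQE Q _
      have hA : ∀ x ∈ A, x ∈ Q.ring ↔ x ∈ V' := by
        rintro ⟨x, hxB⟩ hxA
        have hxA' : x ∈ NN E K0 2 (U := U) := hxA
        have hTxA : T x ∈ NN E K0 2 (U := U) := hT.NN_map hF 2 x hxA'
        rw [← hQ x hxA' hxB, hmP x hxA' hTxA, hQ (T x) hTxA (hmapB x hxB)]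
        exact Iff.rfl
      have hrep : ∀ x : NZ E K0 z, ∃ α ∈ A, ∃ β ∈ A, x = α + β * ⟨y, hyB⟩ := by
        rintro ⟨x, hx⟩
        obtain ⟨α, hα, β, hβ, rfl⟩ := nz_rep (hLN hz2) x hx
        refine ⟨⟨α, hNZ hα⟩, hα, ⟨β * t, hNZ (mul_mem hβ (hLN t.2))⟩, mul_mem hβ (hLN t.2), ?_⟩
        apply Subtype.ext
        show α + β * z = α + β * t * y
        rw [hy]
        field_simp
      have h2E : (2 : E) ≠ 0 := two_ne_zero
      have hcg' : Cg V' (⟨y, hyB⟩ : NZ E K0 z) ρ' := by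
        show V'.valuation _ < 1
        rw [comap_lt, map_sub, hTBE]
        have h5 := hTyQ Q hQ ρ' hρ'
        have e : ((ε : ℤ) : E) * σ ρ₀ * ρ₀⁻¹ * ρ' = σ ρ' := by
          rw [hε1]
          rcases hρ'' with rfl | rfl
          · rw [mul_assoc, inv_mul_cancel₀ hρ₀0]; simp
          · rw [map_neg, mul_neg, mul_assoc, inv_mul_cancel₀ hρ₀0]; simp
        rw [e] at h5
        exact h5
      intro x hx hx'
      have hy2A' : (⟨y, hyB⟩ : NZ E K0 z) ^ 2 ∈ A := hy2A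
      constructor
      · intro hxQ
        have h6 := mem_of_quad A (hQE Q) hE' hEA hA hy2A' hrep hρ'0 h2E hρ' hcg' hxQ
        exact h6
      · intro hxQ
        have h7 : (⟨x, hx⟩ : NZ E K0 z) ∈ V' := hxQ
        exact mem_of_quad A hE' (hQE Q) hEA (fun x hx => (hA x hx).symm) hy2A' hrep hρ'0 h2E
          hcg' hρ' h7
    · exact hε1.symm

end

end Pool.Agent.M
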